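import Pool.Agent.Y45.MON.StmG

/-!
# Bounded connectors (helper333, job G2 of helper45)
-/

set_option autoImplicit false

namespace Pool.Agent.Y333.MON

open Pool.Agent.TH54.BU Pool.Agent.Y45.MON

section

variable {G : Type} [Group G] {H : GH G} {c θ T : ℕ} (L : LS H c θ T)

theorem abs_s_le (i : L.ι) (u p q : G) {m : ℕ} (h : L.D i u p q ≤ m) :
    |L.s i u p q| ≤ (T * m : ℕ) := by
  have h1 := L.wf_lin_z i (L.s i u p q)
  have h2 : T * H.len (L.x i ^ L.s i u p q) ≤ T * m := Nat.mul_le_mul_left _ h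
  rw [Int.abs_eq_natAbs]
  exact_mod_cast h1.trans h2

theorem D_le' (i : L.ι) (u p q : G) : L.D i u p q ≤ H.d p q + c := by
  by_contra hcon
  push Not at hcon
  have := L.wf_proj_s i u p q (by omega)
  omega

theorem s_le' (i : L.ι) (u p q : G) : |L.s i u p q| ≤ (T * (H.d p q + c) : ℕ) :=
  abs_s_le L i u p q (D_le' L i u p q)

theorem pcb_aux (i : L.ι) (g : G) (ρ : ℕ) (hg : g ∉ Subgroup.zpowers (L.x i))
    (hl : H.len g ≤ ρ) (t : ℤ) : |L.s i 1 1 (g * L.x i ^ t)| ≤ (T * (ρ + c + θ) : ℕ) := by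
  have h1 := L.wf_s_add i 1 1 g (g * L.x i ^ t)
  have h2 := s_le' L i 1 1 g
  rw [H.d_one] at h2
  have h3 : |L.s i 1 g (g * L.x i ^ t)| ≤ (T * θ : ℕ) := by
    have h4 : L.D i 1 (g * L.x i ^ (0 : ℤ)) (g * L.x i ^ t) ≤ θ :=
      L.wf_ov (fun _ => by rwa [inv_one, one_mul]) 0 t
    rw [zpow_zero, mul_one] at h4
    exact abs_s_le L i 1 _ _ h4
  have h5 : T * (H.len g + c) ≤ T * (ρ + c) := Nat.mul_le_mul_left _ (by omega)
  have h6 : T * (ρ + c + θ) = T * (ρ + c) + T * θ := by ring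
  have h7 := abs_add_le (L.s i 1 1 g) (L.s i 1 g (g * L.x i ^ t))
  rw [h1] at h7
  rw [h6]
  push_cast at h2 h3 ⊢
  have h8 : (T : ℤ) * (H.len g + c) ≤ T * (ρ + c) := by exact_mod_cast h5
  linarith

end

theorem pcb : PcbStmt := by
  intro G _ H c θ T L i g ρ hg hl t
  have h1 := pcb_aux L i g ρ hg hl t
  have h2 := pcb_aux L i g⁻¹ ρ (fun h => hg (by
    have := (Subgroup.zpowers (L.x i)).inv_mem h
    rwa [inv_inv] at this)) (by rwa [H.len_inv]) t
  exact ⟨h1, h2⟩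

theorem gwin (hgen : GenStmt) : GwinStmt := by
  intro G _ H c θ T L i cs f v ρ F hbr hcs hf hF
  obtain ⟨P, hP⟩ : ∃ P : ℕ, P = T * (ρ + c + θ) := ⟨_, rfl⟩
  have hthr : L.thr = T * (2 * c + θ + 1) := rfl
  have hcst : cst L 0 ρ = 1000 * (T * (c + θ + 0 + ρ + 1) + 1) := rfl
  have e1 : T * (ρ + c + θ) ≤ T * (c + θ + 0 + ρ + 1) := Nat.mul_le_mul_left _ (by omega)
  have e2 : T * (2 * c + θ + 1) ≤ 2 * (T * (c + θ + 0 + ρ + 1)) := by
    rw [← mul_assoc, mul_comm 2 T, mul_assoc]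
    exact Nat.mul_le_mul_left _ (by omega)
  have e3 : T * (ρ + c) ≤ T * (c + θ + 0 + ρ + 1) := Nat.mul_le_mul_left _ (by omega)
  have hbig : 4 * P + 8 * L.thr + 8 ≤ cst L 0 ρ := by omega
  obtain ⟨-, -, -, -, h5, -, h7⟩ := hgen G H c θ T L i cs f v P hbr
    (fun k => by rw [hP]; exact pcb G H c θ T L i (cs k) ρ (hbr.nc k) (hcs k))
    (fun k => lt_of_le_of_lt (by exact_mod_cast hbig) (hf k))
  have hsm : 2 * (P + L.thr) ≤ cst L 0 ρ := by omega
  have hsm' : (2 * (P + L.thr) : ℤ) ≤ cst L 0 ρ := by exact_mod_cast hsm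
  have hsm2 : 2 * L.thr + T * (ρ + c) ≤ cst L 0 ρ := by omega
  have hsm2' : (2 * L.thr + T * (ρ + c) : ℤ) ≤ cst L 0 ρ := by exact_mod_cast hsm2
  refine ⟨fun j w m => ?_, fun m hm => (h5 0 m (by omega)).trans hsm'⟩
  by_cases hk : ∃ k < m, j = i ∧ (v (k + 1))⁻¹ * w ∈ Subgroup.zpowers (L.x i)
  · obtain ⟨k, hkm, rfl, t, ht⟩ := hk
    have hw : w = v (k + 1) * L.x j ^ t := by
      have ht' : L.x j ^ t = (v (k + 1))⁻¹ * w := ht
      rw [ht', mul_inv_cancel_left]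
    rw [hw, L.wf_s_base]
    have h8 := h5 k m hkm
    have h9 := hF k
    have h10 := abs_add_le (L.s j (v (k + 1)) (v 0) (v m) - f k) (f k)
    rw [sub_add_cancel] at h10
    linarith
  · push Not at hk
    have hF0 : (0 : ℤ) ≤ F := Int.natCast_nonneg F
    have hT0 : (0 : ℤ) ≤ T * (ρ + c) := by positivity
    rcases h7 j w m (fun k hkm h => hk k hkm h.1 h.2) with h8 | ⟨q, -, h8⟩
    · linarith
    · have h9 := s_le' L j w (v q) (v q * cs q)
      have h10 : H.d (v q) (v q * cs q) = H.len (cs q) := by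
        unfold GH.d
        rw [inv_mul_cancel_left]
      rw [h10] at h9
      have h11 : T * (H.len (cs q) + c) ≤ T * (ρ + c) :=
        Nat.mul_le_mul_left _ (Nat.add_le_add_right (hcs q) _)
      have h12 : |L.s j w (v q) (v q * cs q)| ≤ (T * (ρ + c) : ℤ) :=
        h9.trans (by exact_mod_cast h11)
      have h13 := abs_add_le (L.s j w (v 0) (v m) - L.s j w (v q) (v q * cs q))
        (L.s j w (v q) (v q * cs q))
      rw [sub_add_cancel] at h13
      linarith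

end Pool.Agent.Y333.MON
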